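import Pool.Agent.Helper65.LT.Pc

/-!
PROJECT LT (MP_274814), block F4-F6, piece P13b: identity theorem on the half plane.
-/

set_option autoImplicit false

namespace Pool.Agent.Helper62.LT

open Pool.Agent.Helper34.LT Pool.Agent.Helper65.LT Finset Complex Filter Topology

noncomputable section

/-- the point of the punctured disc -/
private def P13b_s (q : ℕ) (l : ℂ) : ℂ := exp (-(l / q))

private theorem P13b_s_ne (q : ℕ) (l : ℂ) : P13b_s q l ≠ 0 := Complex.exp_ne_zero _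

private theorem P13b_s_diff (q : ℕ) : Differentiable ℂ (P13b_s q) := by
  unfold P13b_s
  fun_prop

private theorem P13b_s_zpow {q : ℕ} (hq : q ≠ 0) (l : ℂ) : P13b_s q l ^ (-(q : ℤ)) = exp l := by
  unfold P13b_s
  rw [← Complex.exp_int_mul]
  congr 1
  have : (q : ℂ) ≠ 0 := by exact_mod_cast hq
  push_cast
  field_simp

private theorem P13b_s_norm {q : ℕ} (hq : q ≠ 0) {l : ℂ} (hl : 0 < l.re) : ‖P13b_s q l‖ < 1 := by
  unfold P13b_s
  rw [Complex.norm_exp, Real.exp_lt_one_iff]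
  have h1 : (-(l / q)).re = -(l.re / q) := by
    rw [Complex.neg_re, Complex.div_natCast_re]
  rw [h1]
  have h2 : (0 : ℝ) < q := by exact_mod_cast Nat.pos_of_ne_zero hq
  have := div_pos hl h2
  linarith

private theorem P13b_pow_norm {q : ℕ} (hq : q ≠ 0) {l : ℂ} (hl : 0 < l.re) :
    ‖P13b_s q l ^ q‖ < 1 := by
  rw [norm_pow]
  exact pow_lt_one₀ (norm_nonneg _) (P13b_s_norm hq hl) hq

private theorem P13b_slit {y : ℂ} (hy : ‖y‖ < 1) : 1 - y ∈ slitPlane := by
  left
  rw [Complex.sub_re, Complex.one_re]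
  have := (Complex.re_le_norm y).trans_lt hy
  linarith

private theorem P13b_open : IsOpen {l : ℂ | 0 < l.re} :=
  isOpen_lt continuous_const Complex.continuous_re

private theorem P13b_left_diff {q a b : ℕ} (hq : q ≠ 0)
    (hne : ∀ u ∈ Icc 1 (q - 1), ∀ p : ℤ, al q a u + al q b u - 1 ≠ p) (P : Polynomial ℤ) :
    DifferentiableOn ℂ (fun l => phs q a b P (P13b_s q l)) {l : ℂ | 0 < l.re} := by
  unfold phs
  refine DifferentiableOn.cexp ?_
  refine DifferentiableOn.fun_sum fun u hu => ?_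
  refine DifferentiableOn.mul (differentiableOn_const _) (DifferentiableOn.mul ?_ ?_)
  · intro l _
    exact ((P13b_s_diff q l).zpow (Or.inl (P13b_s_ne q l))).differentiableWithinAt
  · have h1 : DifferentiableOn ℂ (gam (al q a u) (al q b u)) (Metric.ball 0 1) :=
      gam_diff fun p => hne u hu p
    have h2 : DifferentiableOn ℂ (fun l => P13b_s q l ^ q) {l : ℂ | 0 < l.re} :=
      ((P13b_s_diff q).pow q).differentiableOn
    refine h1.comp h2 fun l hl => ?_
    rw [mem_ball_zero_iff]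
    exact P13b_pow_norm hq hl

private theorem P13b_right_diff {q a b : ℕ} (hq : q ≠ 0) (H : ℕ → ℂ → ℂ)
    (hd : ∀ k, Differentiable ℂ (H k)) :
    DifferentiableOn ℂ (fun l => ∑ k ∈ range q, H k (P13b_s q l ^ (-(q : ℤ))) *
      (exp (-(Real.pi * I * (al q b k : ℂ))) * w0 q a b k (P13b_s q l))) {l : ℂ | 0 < l.re} := by
  refine DifferentiableOn.fun_sum fun k hk => ?_
  have hz : ∀ n : ℤ, DifferentiableOn ℂ (fun l => P13b_s q l ^ n) {l : ℂ | 0 < l.re} :=
    fun n l _ => ((P13b_s_diff q l).zpow (Or.inl (P13b_s_ne q l))).differentiableWithinAt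
  refine DifferentiableOn.mul ?_ (DifferentiableOn.mul (differentiableOn_const _) ?_)
  · exact (hd k).comp_differentiableOn (hz _)
  · unfold w0
    refine (hz _).mul ?_
    have h2 : DifferentiableOn ℂ (fun l => 1 - P13b_s q l ^ q) {l : ℂ | 0 < l.re} :=
      (differentiableOn_const _).sub ((P13b_s_diff q).pow q).differentiableOn
    refine h2.cpow (differentiableOn_const _) fun l hl => ?_
    exact P13b_slit (P13b_pow_norm hq hl)

private theorem P13b_strip {q a b : ℕ} (hq : q ≠ 0) (P : Polynomial ℤ)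
    (hinf : ∀ x : ℂ, 0 < x.im → 1 < ‖x‖ → Th q a b P 0 x = exp (∑ u ∈ Icc 1 (q - 1),
      exp (-(Real.pi * I * ((al q b u : ℂ) - 1))) * cu q a b P u * Gh (al q a u) (al q b u) x))
    (H : ℕ → ℂ → ℂ)
    (hH : ∀ x ∈ Om, Th q a b P 0 x =
      ∑ k ∈ range q, H k x * (x ^ (al q a k : ℂ) * (1 - x) ^ (al q b k : ℂ)))
    {l : ℂ} (h0 : 0 < l.re) (h1 : 0 < l.im) (h2 : l.im < Real.pi) :
    phs q a b P (P13b_s q l) = ∑ k ∈ range q, H k (P13b_s q l ^ (-(q : ℤ))) *
      (exp (-(Real.pi * I * (al q b k : ℂ))) * w0 q a b k (P13b_s q l)) := by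
  have hx : 0 < (exp l).im := by
    rw [Complex.exp_im]
    exact mul_pos (Real.exp_pos _) (Real.sin_pos_of_pos_of_lt_pi h1 h2)
  have hn : 1 < ‖exp l‖ := by
    rw [Complex.norm_exp]
    exact Real.one_lt_exp_iff.2 h0
  have hO : exp l ∈ Om := by
    refine ⟨Or.inr hx.ne', Or.inr ?_⟩
    rw [Complex.sub_im, Complex.one_im, zero_sub]
    exact (neg_neg_of_pos hx).ne
  have e1 := hinf _ hx hn
  have e2 := hH (exp l) hO
  rw [e1] at e2
  have e3 : phs q a b P (P13b_s q l) = exp (∑ u ∈ Icc 1 (q - 1),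
      exp (-(Real.pi * I * ((al q b u : ℂ) - 1))) * cu q a b P u *
        Gh (al q a u) (al q b u) (exp l)) := by
    unfold phs
    congr 1
    refine Finset.sum_congr rfl fun u _ => ?_
    rw [Gh_eq hq h1 h2]
    rfl
  rw [e3, e2]
  refine Finset.sum_congr rfl fun k _ => ?_
  rw [P13b_s_zpow hq, w0_eq hq h1 h2]
  rfl

theorem P13b_main {q a b : ℕ} (hq : q ≠ 0)
    (hne : ∀ u ∈ Icc 1 (q - 1), ∀ p : ℤ, al q a u + al q b u - 1 ≠ p) (P : Polynomial ℤ)
    (hinf : ∀ x : ℂ, 0 < x.im → 1 < ‖x‖ → Th q a b P 0 x = exp (∑ u ∈ Icc 1 (q - 1),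
      exp (-(Real.pi * I * ((al q b u : ℂ) - 1))) * cu q a b P u * Gh (al q a u) (al q b u) x))
    (H : ℕ → ℂ → ℂ) (hd : ∀ k, Differentiable ℂ (H k))
    (hH : ∀ x ∈ Om, Th q a b P 0 x =
      ∑ k ∈ range q, H k x * (x ^ (al q a k : ℂ) * (1 - x) ^ (al q b k : ℂ)))
    {s : ℂ} (h0 : s ≠ 0) (h1 : ‖s‖ < 1) :
    phs q a b P s =
      ∑ k ∈ range q, H k (s ^ (-(q : ℤ))) *
        (exp (-(Real.pi * I * (al q b k : ℂ))) * w0 q a b k s) := by
  have hA := (P13b_left_diff (a := a) (b := b) hq hne P).analyticOnNhd P13b_open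
  have hB := (P13b_right_diff (a := a) (b := b) hq H hd).analyticOnNhd P13b_open
  have hU : IsPreconnected {l : ℂ | 0 < l.re} := (convex_halfSpace_re_gt 0).isPreconnected
  have hz : (1 + (Real.pi / 2 : ℝ) * I : ℂ) ∈ {l : ℂ | 0 < l.re} := by
    simp
  have hV : IsOpen {l : ℂ | 0 < l.re ∧ 0 < l.im ∧ l.im < Real.pi} := by
    refine P13b_open.inter (IsOpen.inter ?_ ?_)
    · exact isOpen_lt continuous_const Complex.continuous_im
    · exact isOpen_lt Complex.continuous_im continuous_const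
  have hzV : (1 + (Real.pi / 2 : ℝ) * I : ℂ) ∈ {l : ℂ | 0 < l.re ∧ 0 < l.im ∧ l.im < Real.pi} := by
    have := Real.pi_pos
    refine ⟨hz, ?_, ?_⟩
    · simp only [Complex.add_im, Complex.one_im, Complex.mul_im, Complex.ofReal_re,
        Complex.I_im, Complex.ofReal_im, Complex.I_re]
      linarith
    · simp only [Complex.add_im, Complex.one_im, Complex.mul_im, Complex.ofReal_re,
        Complex.I_im, Complex.ofReal_im, Complex.I_re]
      linarith
  have hev := hA.eqOn_of_preconnected_of_eventuallyEq hB hU hz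
    (Filter.eventuallyEq_of_mem (hV.mem_nhds hzV) fun l hl =>
      P13b_strip hq P hinf H hH hl.1 hl.2.1 hl.2.2)
  have hq0 : (q : ℂ) ≠ 0 := by exact_mod_cast hq
  have hs : P13b_s q (-(q * Complex.log s)) = s := by
    unfold P13b_s
    have : -(-((q : ℂ) * Complex.log s) / q) = Complex.log s := by
      field_simp
    rw [this, Complex.exp_log h0]
  have hl : (-(q * Complex.log s) : ℂ) ∈ {l : ℂ | 0 < l.re} := by
    have h2 : Real.log ‖s‖ < 0 := Real.log_neg (norm_pos_iff.2 h0) h1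
    have h3 : (0 : ℝ) < q := by exact_mod_cast Nat.pos_of_ne_zero hq
    have h4 : (-(q * Complex.log s) : ℂ).re = -(q * Real.log ‖s‖) := by
      simp [Complex.log_re]
    rw [Set.mem_ofPred_eq, h4]
    have := mul_neg_of_pos_of_neg h3 h2
    linarith
  have h5 := hev hl
  simp only [hs] at h5
  exact h5

theorem phs_eq' {q a b : ℕ} (hq : q ≠ 0) (ha : Nat.Coprime a q) (hb : Nat.Coprime b q)
    (hab : Nat.Coprime (a + b) q)
    (P : Polynomial ℤ) (H : ℕ → ℂ → ℂ) (hd : ∀ k, Differentiable ℂ (H k))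
    (hH : ∀ x ∈ Om, Th q a b P 0 x =
      ∑ k ∈ range q, H k x * (x ^ (al q a k : ℂ) * (1 - x) ^ (al q b k : ℂ)))
    {s : ℂ} (h0 : s ≠ 0) (h1 : ‖s‖ < 1) :
    phs q a b P s =
      ∑ k ∈ range q, H k (s ^ (-(q : ℤ))) *
        (exp (-(Real.pi * I * (al q b k : ℂ))) * w0 q a b k s) :=
  P13b_main hq (fun _ hu p => al_add_ne hq hab hu p) P
    (fun _ hx hn => Th_inf hq ha hb hab P hx hn) H hd hH h0 h1

end

end Pool.Agent.Helper62.LT
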